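import Pool.Agent.MNE.StmtsD

/-!
# MP_d2d93c_nt, squad MNE, row RDC (helper49): reduction modulo the equation
-/

set_option autoImplicit false

namespace Pool.Agent.MNE.H49

open Finset Filter Topology Polynomial

/-- the monomial -/
noncomputable def mo (i : ℤ) (t : ℕ) (p : ℕ × ℕ) : ℝ := (p.1 : ℝ) ^ i * (p.2 : ℝ) ^ t

/-- `φ` is reducible to monomials of weight between `0` and `w` with small exponent of `T` -/
def RD (P Q : ℕ) (l : Filter (ℕ × ℕ)) (w : ℤ) (φ : ℕ × ℕ → ℝ) : Prop :=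
  ∃ a : (ℤ × ℕ) →₀ ℚ, (∀ e' ∈ a.support, e'.2 < Q ∧ 0 ≤ (Q : ℤ) * e'.1 + P * e'.2 ∧
    (Q : ℤ) * e'.1 + P * e'.2 ≤ w) ∧
  Tendsto (fun p : ℕ × ℕ => φ p - a.sum fun e' t => (t : ℝ) * ((p.1 : ℝ) ^ e'.1 *
    (p.2 : ℝ) ^ e'.2)) l (𝓝 0)

variable {P Q : ℕ} {l : Filter (ℕ × ℕ)}

theorem RD.mono {w w' : ℤ} {φ : ℕ × ℕ → ℝ} (h : RD P Q l w φ) (hw : w ≤ w') : RD P Q l w' φ := by
  obtain ⟨a, h1, h2⟩ := h
  exact ⟨a, fun e he => ⟨(h1 e he).1, (h1 e he).2.1, (h1 e he).2.2.trans hw⟩, h2⟩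

theorem RD.congr {w : ℤ} {φ ψ : ℕ × ℕ → ℝ} (h : RD P Q l w φ) (he : ∀ᶠ p in l, ψ p = φ p) :
    RD P Q l w ψ := by
  obtain ⟨a, h1, h2⟩ := h
  refine ⟨a, h1, h2.congr' ?_⟩
  filter_upwards [he] with p hp
  rw [hp]

theorem RD.zero {w : ℤ} {φ : ℕ × ℕ → ℝ} (h : Tendsto φ l (𝓝 0)) : RD P Q l w φ := by
  refine ⟨0, ?_, ?_⟩
  · intro e he
    simp at he
  · simpa using h

theorem RD.add {w : ℤ} {φ ψ : ℕ × ℕ → ℝ} (h : RD P Q l w φ) (h' : RD P Q l w ψ) :
    RD P Q l w (fun p => φ p + ψ p) := by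
  classical
  obtain ⟨a, h1, h2⟩ := h
  obtain ⟨b, h3, h4⟩ := h'
  refine ⟨a + b, ?_, ?_⟩
  · intro e he
    rcases Finset.mem_union.1 (Finsupp.support_add he) with h5 | h5
    · exact h1 e h5
    · exact h3 e h5
  · have h5 := h2.add h4
    rw [add_zero] at h5
    refine h5.congr fun p => ?_
    rw [Finsupp.sum_add_index']
    · ring
    · intro e
      rw [Rat.cast_zero, zero_mul]
    · intro e s t
      rw [Rat.cast_add, add_mul]

theorem RD.smul {w : ℤ} {φ : ℕ × ℕ → ℝ} (r : ℚ) (h : RD P Q l w φ) :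
    RD P Q l w (fun p => (r : ℝ) * φ p) := by
  classical
  obtain ⟨a, h1, h2⟩ := h
  refine ⟨r • a, ?_, ?_⟩
  · intro e he
    exact h1 e (Finsupp.support_smul he)
  · have h5 := h2.const_mul (r : ℝ)
    rw [mul_zero] at h5
    refine h5.congr fun p => ?_
    rw [Finsupp.sum_smul_index']
    · rw [mul_sub, Finsupp.mul_sum]
      congr 1
      refine Finsupp.sum_congr fun e _ => ?_
      rw [smul_eq_mul, Rat.cast_mul]
      ring
    · intro e
      rw [Rat.cast_zero, zero_mul]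

theorem RD.sum {w : ℤ} {ι : Type} (s : Finset ι) (r : ι → ℚ) (φ : ι → ℕ × ℕ → ℝ)
    (h : ∀ j ∈ s, RD P Q l w (φ j)) : RD P Q l w (fun p => ∑ j ∈ s, (r j : ℝ) * φ j p) := by
  classical
  induction s using Finset.induction_on with
  | empty =>
    refine RD.zero ?_
    simp only [Finset.sum_empty]
    exact tendsto_const_nhds
  | insert j s hj ih =>
    have h1 := ((h j (Finset.mem_insert_self j s)).smul (r j)).add
      (ih fun j' hj' => h j' (Finset.mem_insert_of_mem hj'))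
    refine h1.congr (Eventually.of_forall fun p => ?_)
    rw [Finset.sum_insert hj]

/-- a nonnegative function whose power tends to zero -/
theorem tendsto_of_pow {f : ℕ × ℕ → ℝ} (hf : ∀ p, 0 ≤ f p)
    (h : Tendsto (fun p => f p ^ Q) l (𝓝 0)) : Tendsto f l (𝓝 0) := by
  rw [Metric.tendsto_nhds]
  intro ε hε
  have h1 : ∀ᶠ p in l, f p ^ Q < ε ^ Q := h.eventually (gt_mem_nhds (pow_pos hε Q))
  filter_upwards [h1] with p hp
  rw [dist_zero_right, Real.norm_eq_abs, abs_of_nonneg (hf p)]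
  exact lt_of_pow_lt_pow_left₀ Q hε.le hp

theorem mo_nonneg (i : ℤ) (t : ℕ) (p : ℕ × ℕ) : 0 ≤ mo i t p := by
  unfold mo
  positivity

section main

variable {h M n : ℕ} {σ c κ : ℚ}

theorem U_pos (hL : Lim h M n P Q σ c κ l) : ∀ᶠ p : ℕ × ℕ in l, (0 : ℝ) < p.1 :=
  hL.U.eventually (eventually_gt_atTop 0)

/-- monomials of negative weight tend to zero -/
theorem mo_neg (hB : Br h M n P Q σ c κ) (hL : Lim h M n P Q σ c κ l) (i : ℤ) (t : ℕ)
    (hw : (Q : ℤ) * i + P * t < 0) : Tendsto (mo i t) l (𝓝 0) := by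
  refine tendsto_of_pow (Q := Q) (mo_nonneg i t) ?_
  have hκ : (0 : ℝ) < (κ : ℝ) := by exact_mod_cast hB.hκ
  have h1 : Tendsto (fun p : ℕ × ℕ => (p.1 : ℝ) ^ ((Q : ℤ) * i + P * t)) l (𝓝 0) :=
    (tendsto_zpow_atTop_zero hw).comp hL.U
  have h2 : Tendsto (fun p : ℕ × ℕ => ((κ : ℝ)⁻¹ * ((κ : ℝ) * (p.2 : ℝ) ^ Q / (p.1 : ℝ) ^ P)) ^ t)
      l (𝓝 (((κ : ℝ)⁻¹ * 1) ^ t)) := (hL.T.const_mul _).pow t
  have h3 := h1.mul h2
  rw [zero_mul] at h3
  refine h3.congr' ?_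
  filter_upwards [U_pos hL] with p hp
  have hp0 : (p.1 : ℝ) ≠ 0 := hp.ne'
  have e1 : (κ : ℝ)⁻¹ * ((κ : ℝ) * (p.2 : ℝ) ^ Q / (p.1 : ℝ) ^ P) =
      (p.2 : ℝ) ^ Q / (p.1 : ℝ) ^ P := by
    field_simp
  rw [e1, div_pow, zpow_add₀ hp0]
  have e2 : (p.1 : ℝ) ^ ((P : ℤ) * t) = ((p.1 : ℝ) ^ P) ^ t := by
    rw [← pow_mul, ← zpow_natCast]
    push_cast
    rfl
  have e3 : (p.1 : ℝ) ^ ((Q : ℤ) * i) = ((p.1 : ℝ) ^ i) ^ Q := by
    rw [mul_comm, zpow_mul, zpow_natCast]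
  rw [e2, e3]
  have e4 : ((p.1 : ℝ) ^ P) ^ t ≠ 0 := pow_ne_zero _ (pow_ne_zero _ hp0)
  have e5 : ((p.2 : ℝ) ^ Q) ^ t = ((p.2 : ℝ) ^ t) ^ Q := by
    rw [← pow_mul, ← pow_mul, mul_comm]
  unfold mo
  rw [e5, mul_pow]
  field_simp

/-- the equation -/
theorem eqn (hL : Lim h M n P Q σ c κ l) : ∀ᶠ p : ℕ × ℕ in l,
    (κ : ℝ) * (p.1 : ℝ) ^ Q * (p.2 : ℝ) ^ Q =
      ((p.1 : ℝ) ^ h + (σ : ℝ) * (p.2 : ℝ) ^ h) ^ M +
        (c : ℝ) * ((p.1 : ℝ) ^ h - (σ : ℝ) * (p.2 : ℝ) ^ h) ^ n := by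
  filter_upwards [hL.F] with p hp
  have h1 : ((p.1 : ℚ) ^ h + σ * (p.2 : ℚ) ^ h) ^ M +
      c * ((p.1 : ℚ) ^ h - σ * (p.2 : ℚ) ^ h) ^ n - κ * (p.1 : ℚ) ^ Q * (p.2 : ℚ) ^ Q = 0 := by
    rw [← hp]
    simp only [Fp, evalEval_add, evalEval_sub, evalEval_mul, evalEval_pow, evalEval_C,
      evalEval_X, eval_pow, eval_X, eval_C, eval_mul]
  have h2 := congrArg (fun q : ℚ => (q : ℝ)) h1
  push_cast at h2
  linarith

/-- one step of the reduction -/
theorem step (hB : Br h M n P Q σ c κ) (hL : Lim h M n P Q σ c κ l) (i : ℤ) (t : ℕ)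
    (ht : Q ≤ t) : ∀ᶠ p : ℕ × ℕ in l, mo i t p =
      (∑ j ∈ range (M + 1), ((κ⁻¹ * (M.choose j : ℚ) * σ ^ j : ℚ) : ℝ) *
        mo (i - Q + (h * (M - j) : ℕ)) (t - Q + h * j) p) +
      ∑ j ∈ range (n + 1), ((κ⁻¹ * c * (n.choose j : ℚ) * (-σ) ^ j : ℚ) : ℝ) *
        mo (i - Q + (h * (n - j) : ℕ)) (t - Q + h * j) p := by
  have hκ : (0 : ℝ) < (κ : ℝ) := by exact_mod_cast hB.hκ
  filter_upwards [U_pos hL, eqn hL] with p hp he
  obtain ⟨U, hU⟩ : ∃ U : ℝ, U = p.1 := ⟨_, rfl⟩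
  obtain ⟨T, hT⟩ : ∃ T : ℝ, T = p.2 := ⟨_, rfl⟩
  unfold mo
  rw [← hU] at hp
  rw [← hU, ← hT] at he ⊢
  have hU0 : U ≠ 0 := hp.ne'
  have e1 : ∀ (m : ℕ) (j : ℕ), U ^ (i - Q + (h * (m - j) : ℕ)) * T ^ (t - Q + h * j) =
      U ^ (i - Q) * T ^ (t - Q) * ((T ^ h) ^ j * (U ^ h) ^ (m - j)) := by
    intro m j
    rw [zpow_add₀ hU0, zpow_natCast, pow_add, pow_mul, pow_mul]
    ring
  have e2 : (U ^ h + (σ : ℝ) * T ^ h) ^ M = ∑ j ∈ range (M + 1),
      ((M.choose j : ℝ) * (σ : ℝ) ^ j) * ((T ^ h) ^ j * (U ^ h) ^ (M - j)) := by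
    rw [add_comm, add_pow]
    refine Finset.sum_congr rfl fun j _ => ?_
    rw [mul_pow]
    ring
  have e3 : (U ^ h - (σ : ℝ) * T ^ h) ^ n = ∑ j ∈ range (n + 1),
      ((n.choose j : ℝ) * (-(σ : ℝ)) ^ j) * ((T ^ h) ^ j * (U ^ h) ^ (n - j)) := by
    rw [sub_eq_add_neg, add_comm, add_pow]
    refine Finset.sum_congr rfl fun j _ => ?_
    rw [← neg_mul, mul_pow]
    ring
  have e4 : U ^ i * T ^ t = U ^ (i - Q) * T ^ (t - Q) * ((κ : ℝ)⁻¹ * ((κ : ℝ) * U ^ Q * T ^ Q)) := by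
    have e5 : U ^ i = U ^ (i - Q) * U ^ Q := by
      rw [← zpow_natCast U Q, ← zpow_add₀ hU0]
      congr 1
      ring
    have e6 : T ^ t = T ^ (t - Q) * T ^ Q := by
      rw [← pow_add]
      congr 1
      omega
    rw [e5, e6]
    field_simp
  rw [e4, he, e2, e3, mul_add, mul_add, Finset.mul_sum, Finset.mul_sum, Finset.mul_sum,
    Finset.mul_sum, Finset.mul_sum]
  congr 1
  · refine Finset.sum_congr rfl fun j _ => ?_
    rw [e1]
    push_cast
    ring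
  · refine Finset.sum_congr rfl fun j _ => ?_
    rw [e1]
    push_cast
    ring

theorem main (hB : Br h M n P Q σ c κ) (hL : Lim h M n P Q σ c κ l) :
    ∀ (N : ℕ) (t : ℕ) (i : ℤ), (Q : ℤ) * i + P * t < N → RD P Q l ((Q : ℤ) * i + P * t) (mo i t) := by
  have hh : 1 ≤ h := by
    rcases hB.hh with h1 | h1
    · omega
    · omega
  intro N
  induction N with
  | zero =>
    intro t i hw
    exact RD.zero (mo_neg hB hL i t (by simpa using hw))
  | succ N ihN =>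
    intro t
    induction t using Nat.strong_induction_on with
    | _ t iht =>
      intro i hw
      rcases lt_or_ge ((Q : ℤ) * i + P * t) 0 with h0 | h0
      · exact RD.zero (mo_neg hB hL i t h0)
      rcases Nat.lt_or_ge t Q with htQ | htQ
      · refine ⟨Finsupp.single (i, t) 1, ?_, ?_⟩
        · intro e he
          have h1 := Finsupp.support_single_subset he
          rw [Finset.mem_singleton] at h1
          subst h1
          exact ⟨htQ, h0, le_rfl⟩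
        · refine (tendsto_const_nhds (x := (0 : ℝ))).congr fun p => ?_
          rw [Finsupp.sum_single_index]
          · rw [Rat.cast_one, one_mul]
            show (0 : ℝ) = mo i t p - mo i t p
            rw [sub_self]
          · rw [Rat.cast_zero, zero_mul]
      · refine RD.congr ?_ (step hB hL i t htQ)
        have hQP : (P : ℤ) < Q := by exact_mod_cast hB.hPQ
        have hM : (h : ℤ) * M = P + Q := by exact_mod_cast hB.hM
        have hn : (h : ℤ) * n ≤ P := by exact_mod_cast hB.hn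
        have hhz : (1 : ℤ) ≤ h := by exact_mod_cast hh
        have hwt : ∀ (m j : ℕ), j ≤ m → (Q : ℤ) * (i - Q + (h * (m - j) : ℕ)) +
            P * ((t - Q + h * j : ℕ) : ℤ) = (Q : ℤ) * i + P * t - Q * (P + Q - h * m) -
              h * j * (Q - P) := by
          intro m j hj
          obtain ⟨r, rfl⟩ := Nat.exists_eq_add_of_le hj
          obtain ⟨u, rfl⟩ := Nat.exists_eq_add_of_le htQ
          rw [Nat.add_sub_cancel_left, Nat.add_sub_cancel_left]
          push_cast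
          ring
        refine RD.add (RD.sum _ _ _ ?_) (RD.sum _ _ _ ?_)
        · intro j hj
          have hjM : j ≤ M := Nat.lt_succ_iff.1 (Finset.mem_range.1 hj)
          have h1 := hwt M j hjM
          have h2 : (0 : ℤ) ≤ (h : ℤ) * j * (Q - P) :=
            mul_nonneg (by positivity) (by linarith)
          rw [hM, sub_self, mul_zero, sub_zero] at h1
          have h3 : (Q : ℤ) * (i - Q + (h * (M - j) : ℕ)) +
            P * ((t - Q + h * j : ℕ) : ℤ) ≤ (Q : ℤ) * i + P * t := by linarith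
          refine RD.mono ?_ h3
          rcases Nat.eq_zero_or_pos j with hj0 | hj0
          · refine iht (t - Q + h * j) ?_ _ ?_
            · subst hj0
              have : 0 < Q := lt_trans hB.hP hB.hPQ
              omega
            · exact lt_of_le_of_lt h3 hw
          · refine ihN _ _ ?_
            have h4 : (1 : ℤ) ≤ (h : ℤ) * j * (Q - P) := by
              have h5 : (1 : ℤ) ≤ (j : ℤ) := by exact_mod_cast hj0
              have h6 : (1 : ℤ) ≤ (h : ℤ) * j := by nlinarith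
              nlinarith
            push_cast at hw
            linarith
        · intro j hj
          have hjn : j ≤ n := Nat.lt_succ_iff.1 (Finset.mem_range.1 hj)
          have h1 := hwt n j hjn
          have h2 : (0 : ℤ) ≤ (h : ℤ) * j * (Q - P) :=
            mul_nonneg (by positivity) (by linarith)
          have hP0 : (0 : ℤ) < P := by exact_mod_cast hB.hP
          have h4 : (1 : ℤ) ≤ (Q : ℤ) * (P + Q - h * n) := by
            have h5 : (1 : ℤ) ≤ P + Q - h * n := by linarith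
            nlinarith
          have h3 : (Q : ℤ) * (i - Q + (h * (n - j) : ℕ)) +
            P * ((t - Q + h * j : ℕ) : ℤ) ≤ (Q : ℤ) * i + P * t := by linarith
          refine RD.mono ?_ h3
          refine ihN _ _ ?_
          push_cast at hw
          linarith

end main

theorem rdc : RdcStmt := by
  intro h M n P Q σ c κ l hB hL e
  obtain ⟨N, hN⟩ : ∃ N : ℕ, (Q : ℤ) * e.1 + P * e.2 < N :=
    ⟨((Q : ℤ) * e.1 + P * e.2).toNat + 1, by
      have := Int.self_le_toNat ((Q : ℤ) * e.1 + P * e.2)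
      push_cast
      linarith⟩
  obtain ⟨a, h1, h2⟩ := main hB hL N e.2 e.1 hN
  exact ⟨a, h1, h2⟩

end Pool.Agent.MNE.H49
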